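import Mathlib
import Pool.Agent.X178.AE.Tree

/-!
# Additive error in optimal stopping for the number of components of a tree

For every tree (indeed every connected graph) `G` on `n` vertices and every full information stopping
algorithm, the expected number of components at the stopping time is at most `n/4 + 427`.
-/

namespace Pool.Agent.Results.MP_1fe8eb_co.BoundedAdditiveError

open Finset

/-- The active vertices at time `t` for the ordering `σ(1), ..., σ(n)` (0-based in Lean: the vertices
`σ i` with `i < t`). -/
def active {n : ℕ} (σ : Equiv.Perm (Fin n)) (t : ℕ) : Set (Fin n) := {v | ∃ i : Fin n, (i : ℕ) < t ∧ σ i = v}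

/-- The number of connected components of the subgraph of `G` induced on the active vertices. -/
noncomputable def CC {n : ℕ} (G : SimpleGraph (Fin n)) (σ : Equiv.Perm (Fin n)) (t : ℕ) : ℕ :=
  Nat.card (G.induce (active σ t)).ConnectedComponent

/-- A stopping algorithm: a function from orderings to times `1, ..., n` such that two orderings that
agree up to the stopping time of the first one have the same stopping time. -/
def IsAlgorithm {n : ℕ} (alg : Equiv.Perm (Fin n) → ℕ) : Prop :=
  (∀ σ, 1 ≤ alg σ ∧ alg σ ≤ n) ∧
    ∀ σ τ : Equiv.Perm (Fin n), (∀ i : Fin n, (i : ℕ) < alg σ → σ i = τ i) → alg τ = alg σ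

/-- The score of the algorithm: the expected number of components at the stopping time. -/
noncomputable def score {n : ℕ} (G : SimpleGraph (Fin n)) (alg : Equiv.Perm (Fin n) → ℕ) : ℝ :=
  1 / (n.factorial : ℝ) * ∑ σ : Equiv.Perm (Fin n), (CC G σ (alg σ) : ℝ)

/-- For every connected graph `G` on `n` vertices (in particular every tree) and every stopping algorithm
the score is at most `n/4 + 427`. -/
theorem result : ∀ (n : ℕ) (G : SimpleGraph (Fin n)), (G.IsTree ∨ G.Connected) →
    ∀ alg : Equiv.Perm (Fin n) → ℕ, IsAlgorithm alg → score G alg ≤ (n : ℝ) / 4 + 427 := by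
  intro n G hG' alg halg
  have hG : G.Connected := hG'.elim (fun h => h.1) id
  have h1 := Pool.Agent.X178.AE.main G hG (alg := alg) halg.2 (fun σ => (halg.1 σ).2)
  have h2 : ∀ (σ : Equiv.Perm (Fin n)) (t : ℕ), active σ t = (Pool.Agent.X178.AE.act σ t : Set (Fin n)) := by
    intro σ t
    ext v
    simp only [active, Set.mem_ofPred_eq, Finset.mem_coe, Pool.Agent.X178.AE.mem_act]
    constructor
    · rintro ⟨i, hi, rfl⟩
      simpa using hi
    · intro h
      exact ⟨σ.symm v, h, by simp⟩
  have h3 : ∀ σ : Equiv.Perm (Fin n), (CC G σ (alg σ) : ℝ) =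
      (Nat.card (G.induce (Pool.Agent.X178.AE.act σ (alg σ) : Set (Fin n))).ConnectedComponent : ℝ) := by
    intro σ
    unfold CC
    rw [h2]
  unfold score
  simp only [h3]
  have hf : (0 : ℝ) < n.factorial := by positivity
  rw [one_div, inv_mul_le_iff₀ hf]
  exact h1

end Pool.Agent.Results.MP_1fe8eb_co.BoundedAdditiveError
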